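import Pool.Agent.Helper57.QZ.Stmts

set_option autoImplicit false

namespace Pool.Agent.Helper66.QZ

open Pool.Agent.Helper57.QZ MeasureTheory Set Filter Topology

lemma vm1_int (f : ℝ → ℝ) (hf : Continuous f) (hb : ∀ φ, |f φ| ≤ 1) (x : ℝ) :
    Integrable (fun φ => f φ * Real.exp (x * Real.cos φ)) circ := by
  refine Integrable.mono' (integrable_const (Real.exp |x|))
    (by fun_prop : Continuous fun φ => f φ * Real.exp (x * Real.cos φ)).aestronglyMeasurable
    (ae_of_all _ fun φ => ?_)
  rw [Real.norm_eq_abs, abs_mul, abs_of_pos (Real.exp_pos _)]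
  have h1 : x * Real.cos φ ≤ |x| := by
    calc x * Real.cos φ ≤ |x * Real.cos φ| := le_abs_self _
      _ = |x| * |Real.cos φ| := abs_mul _ _
      _ ≤ |x| * 1 := mul_le_mul_of_nonneg_left (Real.abs_cos_le_one φ) (abs_nonneg _)
      _ = |x| := mul_one _
  calc |f φ| * Real.exp (x * Real.cos φ) ≤ 1 * Real.exp (x * Real.cos φ) :=
        mul_le_mul_of_nonneg_right (hb φ) (Real.exp_pos _).le
    _ ≤ Real.exp |x| := by rw [one_mul]; exact Real.exp_le_exp.2 h1

lemma vm1_der (f : ℝ → ℝ) (hf : Continuous f) (hb : ∀ φ, |f φ| ≤ 1) (x : ℝ) :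
    HasDerivAt (fun u => ∫ φ, f φ * Real.exp (u * Real.cos φ) ∂circ)
      (∫ φ, (f φ * Real.cos φ) * Real.exp (x * Real.cos φ) ∂circ) x := by
  have hb' : ∀ φ, |f φ * Real.cos φ| ≤ 1 := fun φ => by
    rw [abs_mul]
    exact mul_le_one₀ (hb φ) (abs_nonneg _) (Real.abs_cos_le_one φ)
  refine (hasDerivAt_integral_of_dominated_loc_of_deriv_le
    (F := fun u φ => f φ * Real.exp (u * Real.cos φ))
    (F' := fun u φ => (f φ * Real.cos φ) * Real.exp (u * Real.cos φ))
    (bound := fun _ => Real.exp (|x| + 1)) (s := Metric.ball x 1)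
    (Metric.ball_mem_nhds x one_pos) (Eventually.of_forall fun u => ?_)
    (vm1_int f hf hb x) ?_ (ae_of_all _ fun φ u hu => ?_) (integrable_const _)
    (ae_of_all _ fun φ u hu => ?_)).2
  · exact (by fun_prop : Continuous fun φ => f φ * Real.exp (u * Real.cos φ)).aestronglyMeasurable
  · exact (by fun_prop : Continuous fun φ =>
      (f φ * Real.cos φ) * Real.exp (x * Real.cos φ)).aestronglyMeasurable
  · rw [Real.norm_eq_abs, abs_mul, abs_of_pos (Real.exp_pos _)]
    have hu' : |u| ≤ |x| + 1 := by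
      rw [Metric.mem_ball, Real.dist_eq] at hu
      have := abs_sub_abs_le_abs_sub u x
      linarith
    have h1 : u * Real.cos φ ≤ |x| + 1 := by
      calc u * Real.cos φ ≤ |u * Real.cos φ| := le_abs_self _
        _ = |u| * |Real.cos φ| := abs_mul _ _
        _ ≤ |u| * 1 := mul_le_mul_of_nonneg_left (Real.abs_cos_le_one φ) (abs_nonneg _)
        _ ≤ |x| + 1 := by rw [mul_one]; exact hu'
    calc |f φ * Real.cos φ| * Real.exp (u * Real.cos φ) ≤ 1 * Real.exp (u * Real.cos φ) :=
          mul_le_mul_of_nonneg_right (hb' φ) (Real.exp_pos _).le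
      _ ≤ Real.exp (|x| + 1) := by rw [one_mul]; exact Real.exp_le_exp.2 h1
  · have h1 : HasDerivAt (fun u : ℝ => u * Real.cos φ) (Real.cos φ) u := by
      simpa using (hasDerivAt_id u).mul_const (Real.cos φ)
    have h2 := (h1.exp).const_mul (f φ)
    refine h2.congr_deriv ?_
    ring

lemma vm1_I0pos (x : ℝ) : 0 < I0 x := by
  unfold I0
  have hi : Integrable (fun φ => Real.exp (x * Real.cos φ)) circ := by
    simpa using vm1_int (fun _ => 1) continuous_const (by simp) x
  have h1 : ∫ _φ, Real.exp (-|x|) ∂circ ≤ ∫ φ, Real.exp (x * Real.cos φ) ∂circ := by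
    refine integral_mono (integrable_const _) hi fun φ => Real.exp_le_exp.2 ?_
    have h1 : -(x * Real.cos φ) ≤ |x| := by
      calc -(x * Real.cos φ) ≤ |x * Real.cos φ| := neg_le_abs _
        _ = |x| * |Real.cos φ| := abs_mul _ _
        _ ≤ |x| * 1 := mul_le_mul_of_nonneg_left (Real.abs_cos_le_one φ) (abs_nonneg _)
        _ = |x| := mul_one _
    linarith
  rw [integral_const, probReal_univ, one_smul] at h1
  exact lt_of_lt_of_le (Real.exp_pos _) h1

theorem st_vm1 : ST_VM1 := by
  intro x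
  have hI : HasDerivAt I0 (∫ φ, Real.cos φ * Real.exp (x * Real.cos φ) ∂circ) x := by
    have h := vm1_der (fun _ => 1) continuous_const (by simp) x
    simp only [one_mul] at h
    exact h
  have hJ : HasDerivAt (fun u => ∫ φ, Real.cos φ * Real.exp (u * Real.cos φ) ∂circ)
      (∫ φ, Real.cos φ ^ 2 * Real.exp (x * Real.cos φ) ∂circ) x := by
    have h := vm1_der Real.cos Real.continuous_cos Real.abs_cos_le_one x
    simpa [sq] using h
  have h0 : I0 x ≠ 0 := (vm1_I0pos x).ne'
  refine ⟨?_, ?_⟩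
  · have h := hI.log h0
    exact h
  · have h := hJ.div hI h0
    refine HasDerivAt.congr_deriv h ?_
    unfold vv rr
    generalize (∫ φ, Real.cos φ ^ 2 * Real.exp (x * Real.cos φ) ∂circ) = A
    generalize (∫ φ, Real.cos φ * Real.exp (x * Real.cos φ) ∂circ) = B
    field_simp

end Pool.Agent.Helper66.QZ
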